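import Mathlib

set_option autoImplicit false

namespace Pool.Agent.Results.MP_250e3d_co.Z12

open Pointwise

/-- `S* = (S \ {2h}) + 2h` -/
def star (h : ℕ) (S : Set (ZMod (4 * h))) : Set (ZMod (4 * h)) :=
  (S \ {((2 * h : ℕ) : ZMod (4 * h))}) + {((2 * h : ℕ) : ZMod (4 * h))}

/-- `K_o = K \ 2K` -/
def Ko {n : ℕ} (K : AddSubgroup (ZMod n)) : Set (ZMod n) := (K : Set (ZMod n)) \ {x | ∃ k ∈ K, x = 2 * k}

/-- `σ` is an automorphism of `Cay(ℤ_n, T)` -/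
def IsAut {n : ℕ} (T : Set (ZMod n)) (σ : Equiv.Perm (ZMod n)) : Prop :=
  ∀ x y, σ y - σ x ∈ T ↔ y - x ∈ T

theorem result : ∃ (h : ℕ) (S : Set (ZMod (4 * h))), 1 ≤ h ∧ (∀ s ∈ S, -s ∈ S) ∧ 0 ∉ S ∧
    (∃ σ, IsAut (star h S) σ ∧ σ 0 = 0 ∧ σ ((2 * h : ℕ) : ZMod (4 * h)) ≠ (2 * h : ℕ)) ∧
    ∀ K : AddSubgroup (ZMod (4 * h)), (∃ q, Odd q ∧ Nat.card K = 2 * q) →
      ¬ (S \ Ko K) + (AddSubgroup.zmultiples (h : ZMod (4 * h)) : Set (ZMod (4 * h))) ⊆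
        S ∪ Ko K := by
  let S : Set (ZMod 12) := {x | x.val % 2 = 1 ∨ x = 6}
  have hs : ∀ x : ZMod 12, x ∈ star 3 S ↔ x.val % 2 = 1 := by
    intro x
    have : x ∈ star 3 S ↔ ∃ a : ZMod 12, ((a.val % 2 = 1 ∨ a = 6) ∧ a ≠ 6) ∧ a + 6 = x := by
      constructor
      · rintro ⟨a, ha, b, rfl, h⟩
        exact ⟨a, ha, h⟩
      · rintro ⟨a, ha, h⟩
        exact ⟨a, ha, _, rfl, h⟩
    rw [this]
    clear this
    revert x
    decide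
  refine ⟨3, S, by omega, (by decide : ∀ s : ZMod 12, (s.val % 2 = 1 ∨ s = 6) →
    ((-s).val % 2 = 1 ∨ -s = 6)), (by decide : ¬ ((0 : ZMod 12).val % 2 = 1 ∨ (0 : ZMod 12) = 6)),
    ⟨Equiv.swap (6 : ZMod 12) 2, fun x y => ?_, by decide, by decide⟩, ?_⟩
  · rw [hs, hs]
    revert x y
    change ∀ x y : ZMod 12, _
    decide
  · rintro K ⟨q, hq, hK⟩ h
    have h1 : (1 : ZMod 12) ∉ K := fun h1 => by
      have : K = ⊤ := by
        rw [eq_top_iff]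
        intro x _
        have := K.nsmul_mem h1 (ZMod.val (n := 12) x)
        rwa [nsmul_eq_mul, mul_one, ZMod.natCast_zmod_val] at this
      rw [this, AddSubgroup.card_top, Nat.card_zmod] at hK
      obtain ⟨k, rfl⟩ := hq
      omega
    rcases h ⟨(1 : ZMod 12), ⟨Or.inl rfl, fun e => h1 e.1⟩, (3 : ZMod 12),
      AddSubgroup.mem_zmultiples _, rfl⟩ with h4 | h4
    · revert h4
      change ¬ (((1 : ZMod 12) + 3).val % 2 = 1 ∨ (1 : ZMod 12) + 3 = 6)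
      decide
    · exact h4.2 ⟨_, K.add_mem h4.1 h4.1, by decide⟩

end Pool.Agent.Results.MP_250e3d_co.Z12
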